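import Pool.Agent.Q112.BT.Mods
import Pool.Agent.Q120.GM.Exists

/-!
# The exact range of the Brun-Titchmarsh inequality in the sieved models of the primes

`Q` is the level: the random set `A` contains each `n` coprime to `Q` independently with
probability `min(1, (Q/φ(Q))/log n)`, and no other `n`. For `Q = 1` this is the model of Cramér.
`N(x, y; k, l)` is the number of elements of `A` in `(x - y, x]` congruent to `l` modulo `k`. The inequality

  `N(x, y; k, l) < C y / (φ(k) log (y / k))`   (for the primes it is a theorem for `C = 2`)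

is studied for all moduli `k ≤ x ^ θ`, all `l` prime to `k` and all `y` with `lam k log x ≤ y ≤ x`. For `C > 1` the
exact condition is `C lam > 1 + θ`: in every model, almost surely, for all `C`, `θ`, `lam` at the same time, the
inequality holds for all large `x` if `C lam > 1 + θ`, and if `C lam < 1 + θ` it fails for some `x` in every
interval `[Y, 5 Y]`, `Y` large.
-/

set_option autoImplicit false

namespace Pool.Agent.Results.MP_26a8c3_nt.ExactRangeInTheModels

open MeasureTheory Filter Pool.Agent.Q120.GM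
open scoped Topology

/-- `N(x, y; k, l)` for the set `S`: the number of `n ∈ S` in `(x - y, x]` congruent to `l` modulo `k`. -/
noncomputable def N (S : Set ℕ) (x y : ℝ) (k l : ℕ) : ℝ :=
  (Set.ncard {n : ℕ | n ∈ S ∧ x - y < n ∧ (n : ℝ) ≤ x ∧ n % k = l % k} : ℝ)

/-- The inequality `N(x, y; k, l) < C y / (φ(k) log (y / k))` for all moduli `k ≤ x ^ θ`, all `l` prime to `k` and all
real `y > k` with `lam k log x ≤ y ≤ x`. -/
def BrunTitchmarsh (S : Set ℕ) (C θ lam x : ℝ) : Prop :=
  ∀ (k l : ℕ) (y : ℝ), 1 ≤ k → (k : ℝ) ≤ x ^ θ → Nat.Coprime l k → (k : ℝ) < y → lam * k * Real.log x ≤ y → y ≤ x →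
    N S x y k l < C * y / (Nat.totient k * Real.log (y / k))

/-- **The exact range of the inequality.** The models exist, and in every model of level `Q ≥ 1` almost surely, for all
`C > 0`, `0 ≤ θ < 1` and `lam > 0`: (1) if `C > 1` and `C lam > 1 + θ`, the inequality with the constant `C` holds for
all large `x`, all `k ≤ x ^ θ`, `l` prime to `k` and `lam k log x ≤ y ≤ x`; (2) if `C lam < 1 + θ`, then for all large
`Y` this is false for some `x ∈ [Y, 5 Y]`. -/
theorem result : (∀ Q : ℕ, IsModel (prodMeasure (level Q)) (level Q) (trueSet (ι := ℕ))) ∧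
    ∀ (Ω : Type) (_ : MeasurableSpace Ω) (μ : Measure Ω) (_ : IsProbabilityMeasure μ) (A : Ω → Set ℕ) (Q : ℕ),
      1 ≤ Q → IsModel μ (level Q) A →
      ∀ᵐ ω ∂μ, ∀ C θ lam : ℝ, 0 < C → 0 ≤ θ → θ < 1 → 0 < lam →
        (1 < C → 1 + θ < C * lam → ∀ᶠ x : ℝ in atTop, BrunTitchmarsh (A ω) C θ lam x) ∧
        (C * lam < 1 + θ → ∀ᶠ Y : ℝ in atTop, ∃ x, Y ≤ x ∧ x ≤ 5 * Y ∧ ¬ BrunTitchmarsh (A ω) C θ lam x) := by
  refine ⟨fun Q => isModel (level Q) (level_nonneg Q) (level_le_one Q), ?_⟩
  intro Ω _ μ _ A Q hQ hA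
  exact Pool.Agent.Q112.BT.bt_law hA hQ

end Pool.Agent.Results.MP_26a8c3_nt.ExactRangeInTheModels
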