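import Pool.Agent.Q138.PS.UZ
import Pool.Agent.Results.MP_26a8c3_nt.AlmostAllPositions

/-!
# The inequality of Brun and Titchmarsh at the positions `k ⌊α P(n)⌋`

Let `q ≥ 2`. Outside a set of real numbers of Hausdorff dimension at most `q / (q + 1 / (q 2 ^ (q - 1)))` (that is `8 / 9` for
`q = 2`) every `α > 0` has the following property. There is `η > 0` such that for all `δ, θ > 0` there is `κ > 0` such that for
all large `N` and ALL integral polynomials `P` of degree `q` with positive leading coefficient and coefficients of size at most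
`N ^ η`, for all but `N ^ (1 - κ)` of the `n ≤ N`: with `M = ⌊α P(n)⌋`, for ALL moduli `1 ≤ k ≤ N ^ κ`, ALL `l` prime to `k` and
ALL `H` with `N ^ θ ≤ H ≤ N ^ η`, the number of the primes `p ≡ l (mod k)` with `k M < p ≤ k (M + H)` is at most
`(4 + δ) k H / (φ(k) log M)`.
-/

set_option autoImplicit false

namespace Pool.Agent.Results.MP_26a8c3_nt.PositionsAlongRealMultiples

open Finset Filter Topology
open Pool.Agent.Q138.PS
open Pool.Agent.Results.MP_26a8c3_nt.AlmostAllPositions (primeCount)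

/-- the inequality `N(k (M + H), k H; k, l) ≤ (4 + δ) k H / (φ(k) log M)` fails -/
def Bad (δ : ℝ) (k : ℕ) (l : ℤ) (H M : ℕ) : Prop :=
  (4 + δ) * (k * H) < Nat.totient k * Real.log M * primeCount (k * (M + H)) (k * H) k l

open Classical in
/-- the number of the `1 ≤ n ≤ N` such that for `M = ⌊α P(n)⌋` the inequality fails for some `1 ≤ k ≤ N ^ κ`, some `l` prime to
`k` and some `H` with `N ^ θ ≤ H ≤ N ^ η` -/
noncomputable def bad (δ θ η κ α : ℝ) (P : Polynomial ℤ) (N : ℕ) : ℕ :=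
  ((Icc 1 N).filter fun n : ℕ => ∃ (k : ℕ) (l : ℤ) (H : ℕ), 1 ≤ k ∧ (k : ℝ) ≤ (N : ℝ) ^ κ ∧ Int.gcd l k = 1 ∧
    (N : ℝ) ^ θ ≤ H ∧ (H : ℝ) ≤ (N : ℝ) ^ η ∧ Bad δ k l H ⌊α * ((P.eval (n : ℤ) : ℤ) : ℝ)⌋₊).card

/-- the family of the bad sets -/
def X (i : ℕ × ℕ × ℕ × ℕ) (M : ℕ) : Prop :=
  1 ≤ i.2.1 ∧ Int.gcd (i.2.2.1 : ℤ) i.2.1 = 1 ∧ Bad (1 / ((i.1 : ℝ) + 1)) i.2.1 (i.2.2.1 : ℤ) i.2.2.2 M

/-- the index sets -/
noncomputable def Om (η : ℝ) (N : ℕ) : Finset (ℕ × ℕ × ℕ × ℕ) :=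
  range (⌊(N : ℝ) ^ η⌋₊ + 1) ×ˢ range (⌊(N : ℝ) ^ η⌋₊ + 1) ×ˢ range (⌊(N : ℝ) ^ η⌋₊ + 1) ×ˢ range (⌊(N : ℝ) ^ η⌋₊ + 1)

theorem om_mono (η : ℝ) (hη : 0 < η) : Monotone (Om η) := by
  intro a b hab
  have h : ⌊(a : ℝ) ^ η⌋₊ ≤ ⌊(b : ℝ) ^ η⌋₊ :=
    Nat.floor_le_floor (Real.rpow_le_rpow (Nat.cast_nonneg _) (by exact_mod_cast hab) hη.le)
  have h' : range (⌊(a : ℝ) ^ η⌋₊ + 1) ⊆ range (⌊(b : ℝ) ^ η⌋₊ + 1) := range_subset_range.2 (by omega)
  unfold Om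
  exact Finset.product_subset_product h' (Finset.product_subset_product h' (Finset.product_subset_product h' h'))

theorem om_card (η : ℝ) (hη : 0 < η) : ∀ᶠ N : ℕ in atTop, ((Om η N).card : ℝ) ≤ (N : ℝ) ^ (6 * η) := by
  have hrp : Tendsto (fun N : ℕ => (N : ℝ) ^ η) atTop atTop :=
    (tendsto_rpow_atTop hη).comp tendsto_natCast_atTop_atTop
  filter_upwards [hrp.eventually_ge_atTop 4, eventually_ge_atTop 1] with N h4 hN1
  have hN0 : (0 : ℝ) < N := by exact_mod_cast hN1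
  have h1 : ((⌊(N : ℝ) ^ η⌋₊ : ℕ) : ℝ) ≤ (N : ℝ) ^ η := Nat.floor_le (by positivity)
  unfold Om
  rw [card_product, card_product, card_product, card_range]
  push_cast
  have h2 : ((⌊(N : ℝ) ^ η⌋₊ : ℕ) : ℝ) + 1 ≤ 2 * (N : ℝ) ^ η := by linarith
  have h3 : (N : ℝ) ^ (6 * η) = ((N : ℝ) ^ η) ^ 6 := by
    rw [← Real.rpow_natCast, ← Real.rpow_mul hN0.le]
    congr 1
    push_cast
    ring
  have h5 : (0 : ℝ) ≤ ((⌊(N : ℝ) ^ η⌋₊ : ℕ) : ℝ) + 1 := by positivity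
  set u : ℝ := (N : ℝ) ^ η with hu
  set v : ℝ := ((⌊u⌋₊ : ℕ) : ℝ) + 1 with hv
  have h6 : v * (v * (v * v)) ≤ (2 * u) * ((2 * u) * ((2 * u) * (2 * u))) := by
    have e1 : v * v ≤ (2 * u) * (2 * u) := by gcongr
    have e2 : v * (v * v) ≤ (2 * u) * ((2 * u) * (2 * u)) := by gcongr
    gcongr
  rw [h3]
  refine h6.trans ?_
  have h7 : (2 * u) * ((2 * u) * ((2 * u) * (2 * u))) = 16 * u ^ 4 := by ring
  have h8 : (16 : ℝ) ≤ u ^ 2 := by nlinarith
  have h9 : 16 * u ^ 4 ≤ u ^ 2 * u ^ 4 := by gcongr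
  rw [h7]
  calc 16 * u ^ 4 ≤ u ^ 2 * u ^ 4 := h9
    _ = u ^ 6 := by ring

theorem pc_mono {k : ℕ} {l : ℤ} {H H' M : ℕ} (h : H ≤ H') :
    primeCount (k * (M + H)) (k * H) k l ≤ primeCount (k * (M + H')) (k * H') k l := by
  unfold primeCount
  refine card_le_card ?_
  intro p hp
  rw [mem_filter, mem_Ioc] at hp ⊢
  have e : ∀ G : ℕ, k * (M + G) - k * G = k * M := fun G => by rw [mul_add, Nat.add_sub_cancel]
  rw [e] at hp ⊢
  refine ⟨⟨hp.1.1, hp.1.2.trans ?_⟩, hp.2⟩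
  exact Nat.mul_le_mul_left k (by omega)

theorem pc_mod (k : ℕ) (l : ℤ) (x y : ℕ) : primeCount x y k l = primeCount x y k (l % k) := by
  unfold primeCount
  refine congrArg _ (filter_congr fun p _ => and_congr_right fun _ => ?_)
  exact ⟨fun h => h.trans (Int.mod_modEq l k).symm, fun h => h.trans (Int.mod_modEq l k)⟩

/-- the counting of the bad sets -/
theorem few (δ ε : ℝ) (hδ : 0 < δ) (hε : 0 < ε) : ∃ X₀ : ℕ, ∀ Y : ℕ, X₀ ≤ Y → ∀ (k : ℕ) (l : ℤ), 1 ≤ k →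
    (k : ℝ) ≤ (Y : ℝ) ^ ((1 : ℝ) / 2) → Int.gcd l k = 1 → ∀ H : ℕ, 1 ≤ H → (H : ℝ) ≤ (Y : ℝ) ^ ((1 : ℝ) / 2) →
    cn (Bad δ k l H) Y ≤ (Y : ℝ) ^ (1 + ε) / H := by
  classical
  obtain ⟨X₀, h⟩ := AlmostAllPositions.result (1 / 2) (1 / 2) δ ε (by norm_num) le_rfl (by norm_num) hδ hε
  refine ⟨X₀ + 2, fun Y hY k l hk hkY hkl H hH hHY => ?_⟩
  have h1 := h Y (by omega) k l hk hkY hkl H hH hHY
  have h2 : (2 * (1 / 2 : ℝ) + ε) = 1 + ε := by ring
  rw [h2] at h1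
  refine le_trans ?_ h1
  unfold cn
  refine Nat.cast_le.2 (card_le_card ?_)
  intro M hM
  rw [mem_filter, mem_Icc] at hM ⊢
  refine ⟨hM.1, ?_⟩
  have h3 := hM.2
  unfold Bad at h3
  have hY1 : (1 : ℝ) < Y := by exact_mod_cast (by omega : 1 < Y)
  have hlY : 0 < Real.log Y := Real.log_pos hY1
  have hφ : (0 : ℝ) < Nat.totient k := by exact_mod_cast Nat.totient_pos.2 (by omega)
  have hlM : Real.log M ≤ Real.log Y :=
    Real.log_le_log (by exact_mod_cast hM.1.1) (by exact_mod_cast hM.1.2)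
  have h4 : (4 + δ) * ((k : ℝ) * H) < Nat.totient k * Real.log Y * primeCount (k * (M + H)) (k * H) k l := by
    refine h3.trans_le ?_
    gcongr
  have h5 : (2 / (1 / 2 : ℝ) + δ) * (k * H / (Nat.totient k * Real.log Y)) =
      (4 + δ) * ((k : ℝ) * H) / (Nat.totient k * Real.log Y) := by ring
  rw [h5, div_lt_iff₀ (by positivity)]
  linarith

/-- **Theorem.** -/
theorem result (q : ℕ) (hq : 2 ≤ q) :
    ∃ E : Set ℝ, dimH E ≤ ENNReal.ofReal (q / (q + 1 / ((q : ℝ) * 2 ^ (q - 1)))) ∧ ∀ α : ℝ, 0 < α → α ∉ E →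
      ∃ η : ℝ, 0 < η ∧ ∀ δ θ : ℝ, 0 < δ → 0 < θ → ∃ κ : ℝ, 0 < κ ∧ ∀ᶠ N : ℕ in atTop, ∀ P : Polynomial ℤ,
        P.natDegree = q → 0 < P.leadingCoeff → (∀ j, |((P.coeff j : ℤ) : ℝ)| ≤ (N : ℝ) ^ η) →
        (bad δ θ η κ α P N : ℝ) ≤ (N : ℝ) ^ (1 - κ) := by
  classical
  obtain ⟨E, hE, hg⟩ := exc_fam2 q hq X 6 (by norm_num) Om om_mono om_card
  refine ⟨E, hE, fun α hα hαE => ?_⟩
  obtain ⟨η, hη, hη4, h1⟩ := hg α hα hαE
  refine ⟨η / 2, by positivity, fun δ θ hδ hθ => ?_⟩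
  obtain ⟨d, hd⟩ := exists_nat_one_div_lt (show (0 : ℝ) < δ / 2 by positivity)
  set δ' : ℝ := 1 / ((d : ℝ) + 1) with hδ'
  have hδ'0 : 0 < δ' := by positivity
  set t : ℝ := min (δ / 32) (1 / 4) with ht
  have ht0 : 0 < t := by positivity
  have ht1 : t ≤ δ / 32 := min_le_left _ _
  have ht4 : t ≤ 1 / 4 := min_le_right _ _
  have hq1 : (0 : ℝ) < q + 1 := by positivity
  set ε : ℝ := θ / (2 * (q + 1)) with hε
  have hε0 : 0 < ε := by positivity
  obtain ⟨κ, hκ, hκη, h2⟩ := h1 1 ε hε0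
  obtain ⟨X₀, h3⟩ := few δ' ε hδ'0 hε0
  refine ⟨κ / 8, by positivity, ?_⟩
  have hr : ∀ s : ℝ, 0 < s → Tendsto (fun N : ℕ => (N : ℝ) ^ s) atTop atTop := fun s hs =>
    (tendsto_rpow_atTop hs).comp tendsto_natCast_atTop_atTop
  have hl0 : 0 < Real.log (1 + t) := Real.log_pos (by linarith)
  have hlog : ∀ᶠ N : ℕ in atTop, Real.log N / Real.log (1 + t) + 2 ≤ (N : ℝ) ^ (κ / 8) := by
    have hl : Tendsto (fun N : ℕ => Real.log N / (N : ℝ) ^ (κ / 8)) atTop (𝓝 0) :=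
      ((isLittleO_log_rpow_atTop (by positivity)).tendsto_div_nhds_zero).comp tendsto_natCast_atTop_atTop
    filter_upwards [hl.eventually_lt_const (show (0 : ℝ) < Real.log (1 + t) / 2 by positivity),
      (hr (κ / 8) (by positivity)).eventually_ge_atTop 4] with N hN h4
    have h0 : (0 : ℝ) < (N : ℝ) ^ (κ / 8) := by linarith
    rw [div_lt_iff₀ h0] at hN
    have h5 : Real.log N / Real.log (1 + t) ≤ (N : ℝ) ^ (κ / 8) / 2 := by
      rw [div_le_iff₀ hl0]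
      linarith
    linarith
  filter_upwards [h2, hlog, (hr η hη).eventually_ge_atTop (d : ℝ), (hr (κ / 8) (by positivity)).eventually_ge_atTop 4,
    (hr (1 / 2) (by norm_num)).eventually_ge_atTop ((X₀ : ℝ) + 1), eventually_ge_atTop 1,
    (hr (η / 2) (by positivity)).eventually_ge_atTop 2, (hr θ hθ).eventually_ge_atTop (1 / t)] with
    N hN hlN hdN h4 hX0 hN1 hη2 hθt
  intro P hdeg hlead hco
  have hNr : (1 : ℝ) ≤ N := by exact_mod_cast hN1
  have hN0 : (0 : ℝ) < N := by linarith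
  have hadd : ∀ a b : ℝ, (N : ℝ) ^ a * (N : ℝ) ^ b = (N : ℝ) ^ (a + b) := fun a b => (Real.rpow_add hN0 a b).symm
  have hmon : ∀ {a b : ℝ}, a ≤ b → (N : ℝ) ^ a ≤ (N : ℝ) ^ b := fun h => Real.rpow_le_rpow_of_exponent_le hNr h
  set V : ℕ := ⌊(N : ℝ) ^ (κ / 8)⌋₊ with hV
  have hVr : (V : ℝ) ≤ (N : ℝ) ^ (κ / 8) := Nat.floor_le (by positivity)
  -- every member of the family
  have hmem : ∀ (k l m : ℕ), k ≤ V → l ≤ V → (N : ℝ) ^ θ ≤ sca t m → (sca t m : ℝ) ≤ (N : ℝ) ^ η →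
      cnP (X (d, k, l, sca t m)) α P N ≤ (N : ℝ) ^ (1 - κ) := by
    intro k l m hk hl hm1 hm2
    have hVη : ((V : ℕ) : ℝ) ≤ (N : ℝ) ^ η := hVr.trans (hmon (by linarith))
    have e1 : ∀ a : ℕ, (a : ℝ) ≤ (N : ℝ) ^ η → a ∈ range (⌊(N : ℝ) ^ η⌋₊ + 1) := by
      intro a ha
      rw [mem_range]
      have := Nat.le_floor ha
      omega
    have hkη : (k : ℝ) ≤ (N : ℝ) ^ η := le_trans (by exact_mod_cast hk) hVη
    have hlη : (l : ℝ) ≤ (N : ℝ) ^ η := le_trans (by exact_mod_cast hl) hVη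
    refine hN (d, k, l, sca t m) ?_ (fun Y hY1 hY2 => ?_) P hdeg hlead fun j => (hco j).trans (hmon (by linarith))
    · unfold Om
      rw [mem_product, mem_product, mem_product]
      exact ⟨e1 _ hdN, e1 _ hkη, e1 _ hlη, e1 _ hm2⟩
    · have hY0 : (0 : ℝ) < Y := lt_of_le_of_lt (by positivity) hY1
      have hYX : X₀ ≤ Y := by
        have : (X₀ : ℝ) ≤ Y := by linarith
        exact_mod_cast this
      have hY1r : (1 : ℝ) ≤ Y := by
        have : 0 < Y := by exact_mod_cast hY0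
        exact_mod_cast this
      have hYh : (N : ℝ) ^ η ≤ (Y : ℝ) ^ ((1 : ℝ) / 2) := by
        calc (N : ℝ) ^ η ≤ (N : ℝ) ^ ((1 : ℝ) / 4) := hmon (by linarith)
          _ = ((N : ℝ) ^ ((1 : ℝ) / 2)) ^ ((1 : ℝ) / 2) := by
              rw [← Real.rpow_mul hN0.le]
              norm_num
          _ ≤ (Y : ℝ) ^ ((1 : ℝ) / 2) := Real.rpow_le_rpow (by positivity) hY1.le (by norm_num)
      by_cases hkl : 1 ≤ k ∧ Int.gcd (l : ℤ) k = 1
      · have hH0 : (0 : ℝ) < sca t m := lt_of_lt_of_le (by positivity) hm1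
        have h5 := h3 Y hYX k l hkl.1 (hkη.trans hYh) hkl.2 (sca t m) (by
          have : 0 < sca t m := by exact_mod_cast hH0
          omega) (hm2.trans hYh)
        have h6 : cn (X (d, k, l, sca t m)) Y ≤ cn (Bad δ' k l (sca t m)) Y := by
          unfold cn
          refine Nat.cast_le.2 (card_le_card ?_)
          intro M hM
          rw [mem_filter] at hM ⊢
          exact ⟨hM.1, hM.2.2.2⟩
        refine h6.trans (h5.trans ?_)
        have h7 : (Y : ℝ) ^ (1 + ε) / sca t m ≤ (Y : ℝ) ^ (1 + ε) / (N : ℝ) ^ θ := by gcongr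
        refine h7.trans ?_
        rw [div_le_iff₀ (by positivity)]
        have h8 : (Y : ℝ) ^ (1 + ε) = (Y : ℝ) ^ (1 - ε) * (Y : ℝ) ^ (2 * ε) := by
          rw [← Real.rpow_add hY0]
          congr 1
          ring
        have h9 : (Y : ℝ) ^ (2 * ε) ≤ (N : ℝ) ^ θ := by
          calc (Y : ℝ) ^ (2 * ε) ≤ ((N : ℝ) ^ (q + 1)) ^ (2 * ε) := Real.rpow_le_rpow hY0.le hY2 (by positivity)
            _ = (N : ℝ) ^ θ := by
                rw [← Real.rpow_natCast, ← Real.rpow_mul hN0.le]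
                congr 1
                push_cast
                rw [hε]
                field_simp
        have h10 : (1 : ℝ) ≤ (N : ℝ) ^ κ := Real.one_le_rpow hNr hκ.le
        calc (Y : ℝ) ^ (1 + ε) = (Y : ℝ) ^ (1 - ε) * (Y : ℝ) ^ (2 * ε) := h8
          _ ≤ (Y : ℝ) ^ (1 - ε) * (N : ℝ) ^ θ := by gcongr
          _ = 1 * 1 * (Y : ℝ) ^ (1 - ε) * (N : ℝ) ^ θ := by ring
          _ ≤ 1 * (N : ℝ) ^ κ * (Y : ℝ) ^ (1 - ε) * (N : ℝ) ^ θ := by gcongr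
      · have h6 : cn (X (d, k, l, sca t m)) Y = 0 := by
          unfold cn
          rw [Nat.cast_eq_zero, card_eq_zero, filter_eq_empty_iff]
          intro M _ hM
          exact hkl ⟨hM.1, hM.2.1⟩
        rw [h6]
        positivity
  -- the union
  set I : Finset (ℕ × ℕ × ℕ) := (range (V + 1) ×ˢ range (V + 1) ×ˢ range (V + 1)).filter
    (fun i => (N : ℝ) ^ θ ≤ sca t i.2.2 ∧ (sca t i.2.2 : ℝ) ≤ (N : ℝ) ^ η) with hI
  have hsub : ((Icc 1 N).filter fun n : ℕ => ∃ (k : ℕ) (l : ℤ) (H : ℕ), 1 ≤ k ∧ (k : ℝ) ≤ (N : ℝ) ^ (κ / 8) ∧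
      Int.gcd l k = 1 ∧ (N : ℝ) ^ θ ≤ H ∧ (H : ℝ) ≤ (N : ℝ) ^ (η / 2) ∧
      Bad δ k l H ⌊α * ((P.eval (n : ℤ) : ℤ) : ℝ)⌋₊) ⊆
      I.biUnion fun i => (Icc 1 N).filter fun n : ℕ => X (d, i.1, i.2.1, sca t i.2.2) ⌊α * ((P.eval (n : ℤ) : ℤ) : ℝ)⌋₊ := by
    intro n hn
    rw [mem_filter] at hn
    obtain ⟨hn1, k, l, H, hk1, hk2, hkl, hH1, hH2, hb⟩ := hn
    have hHr0 : (0 : ℝ) < H := lt_of_lt_of_le (by positivity) hH1
    have hH0 : 1 ≤ H := by
      have : 0 < H := by exact_mod_cast hHr0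
      omega
    obtain ⟨m, hm1, hm2, hm3⟩ := sca_close ht0 hH0 (hθt.trans hH1)
    have hkV : k ≤ V := Nat.le_floor hk2
    have hlk0 : 0 ≤ l % (k : ℤ) := Int.emod_nonneg _ (by exact_mod_cast (by omega : k ≠ 0))
    have hlk : l % (k : ℤ) < k := Int.emod_lt_of_pos _ (by exact_mod_cast (by omega : 0 < k))
    have hmV : m ≤ V := by
      apply Nat.le_floor
      have h5 : Real.log H ≤ Real.log N := by
        apply Real.log_le_log hHr0
        calc (H : ℝ) ≤ (N : ℝ) ^ (η / 2) := hH2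
          _ ≤ (N : ℝ) ^ (1 : ℝ) := hmon (by linarith)
          _ = N := Real.rpow_one _
      have h6 : (m : ℝ) ≤ Real.log N / Real.log (1 + t) + 2 := by
        have h7 : (m : ℝ) * Real.log (1 + t) ≤ Real.log N + Real.log (1 + t) := by linarith
        have h8 : (m : ℝ) ≤ (Real.log N + Real.log (1 + t)) / Real.log (1 + t) := by
          rw [le_div_iff₀ hl0]
          exact h7
        have h9 : (Real.log N + Real.log (1 + t)) / Real.log (1 + t) = Real.log N / Real.log (1 + t) + 1 := by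
          field_simp
        linarith
      exact h6.trans hlN
    have hs1 : (N : ℝ) ^ θ ≤ sca t m := hH1.trans (by exact_mod_cast hm1)
    have hs2 : (sca t m : ℝ) ≤ (N : ℝ) ^ η := by
      calc (sca t m : ℝ) ≤ (1 + 2 * t) * H := hm2
        _ ≤ 2 * (N : ℝ) ^ (η / 2) := by
            gcongr
            linarith
        _ ≤ (N : ℝ) ^ (η / 2) * (N : ℝ) ^ (η / 2) := by gcongr
        _ = (N : ℝ) ^ η := by
            rw [hadd]
            congr 1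
            ring
    rw [mem_biUnion]
    refine ⟨(k, (l % (k : ℤ)).toNat, m), ?_, ?_⟩
    · rw [hI, mem_filter, mem_product, mem_product, mem_range, mem_range, mem_range]
      exact ⟨⟨by omega, by
        show (l % (k : ℤ)).toNat < V + 1
        omega, by
        show m < V + 1
        omega⟩, hs1, hs2⟩
    · rw [mem_filter]
      refine ⟨hn1, hk1, ?_, ?_⟩
      · show Int.gcd (((l % (k : ℤ)).toNat : ℕ) : ℤ) k = 1
        rw [Int.toNat_of_nonneg hlk0, Int.gcd_emod]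
        exact hkl
      · show Bad (1 / ((d : ℝ) + 1)) k (((l % (k : ℤ)).toNat : ℕ) : ℤ) (sca t m) ⌊α * ((P.eval (n : ℤ) : ℤ) : ℝ)⌋₊
        rw [Int.toNat_of_nonneg hlk0]
        unfold Bad at hb ⊢
        rw [← pc_mod]
        rw [← hδ']
        set M : ℕ := ⌊α * ((P.eval (n : ℤ) : ℤ) : ℝ)⌋₊ with hM
        have hlM : 0 ≤ Real.log M := by
          rcases Nat.eq_zero_or_pos M with h | h
          · rw [h]
            simp
          · exact Real.log_nonneg (by exact_mod_cast h)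
        have h5 : (4 + δ') * ((k : ℝ) * (sca t m)) ≤ (4 + δ) * (k * H) := by
          have h6 : (4 + δ') * (1 + 2 * t) ≤ 4 + δ := by nlinarith
          calc (4 + δ') * ((k : ℝ) * (sca t m)) ≤ (4 + δ') * ((k : ℝ) * ((1 + 2 * t) * H)) := by gcongr
            _ = (4 + δ') * (1 + 2 * t) * (k * H) := by ring
            _ ≤ (4 + δ) * (k * H) := by gcongr
        refine h5.trans_lt (hb.trans_le ?_)
        have h7 : (primeCount (k * (M + H)) (k * H) k l : ℝ) ≤ primeCount (k * (M + sca t m)) (k * sca t m) k l := by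
          exact_mod_cast pc_mono hm1
        gcongr
  have hcard : ((I.card : ℕ) : ℝ) ≤ (N : ℝ) ^ (3 * κ / 4) := by
    have h5 : I.card ≤ (V + 1) * ((V + 1) * (V + 1)) := by
      refine (card_filter_le _ _).trans ?_
      rw [card_product, card_product, card_range]
    have h6 : ((I.card : ℕ) : ℝ) ≤ ((V : ℝ) + 1) * (((V : ℝ) + 1) * ((V : ℝ) + 1)) := by exact_mod_cast h5
    have h7 : (V : ℝ) + 1 ≤ (N : ℝ) ^ (κ / 8) * (N : ℝ) ^ (κ / 8) := by nlinarith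
    have h8 : (0 : ℝ) ≤ (V : ℝ) + 1 := by positivity
    calc ((I.card : ℕ) : ℝ) ≤ ((V : ℝ) + 1) * (((V : ℝ) + 1) * ((V : ℝ) + 1)) := h6
      _ ≤ ((N : ℝ) ^ (κ / 8) * (N : ℝ) ^ (κ / 8)) * (((N : ℝ) ^ (κ / 8) * (N : ℝ) ^ (κ / 8)) *
          ((N : ℝ) ^ (κ / 8) * (N : ℝ) ^ (κ / 8))) := by gcongr
      _ = (N : ℝ) ^ (3 * κ / 4) := by
          rw [hadd, hadd, hadd]
          congr 1
          ring
  have hfin : (bad δ θ (η / 2) (κ / 8) α P N : ℝ) ≤ ∑ i ∈ I, cnP (X (d, i.1, i.2.1, sca t i.2.2)) α P N := by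
    unfold bad
    have h5 := (card_le_card hsub).trans card_biUnion_le
    have h6 : (((Icc 1 N).filter fun n : ℕ => ∃ (k : ℕ) (l : ℤ) (H : ℕ), 1 ≤ k ∧ (k : ℝ) ≤ (N : ℝ) ^ (κ / 8) ∧
      Int.gcd l k = 1 ∧ (N : ℝ) ^ θ ≤ H ∧ (H : ℝ) ≤ (N : ℝ) ^ (η / 2) ∧
      Bad δ k l H ⌊α * ((P.eval (n : ℤ) : ℤ) : ℝ)⌋₊).card : ℝ) ≤
      ∑ i ∈ I, (((Icc 1 N).filter fun n : ℕ => X (d, i.1, i.2.1, sca t i.2.2) ⌊α * ((P.eval (n : ℤ) : ℤ) : ℝ)⌋₊).card : ℝ) := by
      exact_mod_cast h5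
    refine le_trans (le_of_eq ?_) (h6.trans (le_of_eq (sum_congr rfl fun i _ => ?_)))
    · refine congrArg _ (congrArg _ ?_)
      ext n
      simp only [mem_filter]
    · unfold cnP cn
      refine congrArg _ (congrArg _ ?_)
      ext n
      simp only [mem_filter]
  refine hfin.trans ?_
  calc ∑ i ∈ I, cnP (X (d, i.1, i.2.1, sca t i.2.2)) α P N ≤ ∑ _i ∈ I, (N : ℝ) ^ (1 - κ) := by
        refine sum_le_sum fun i hi => ?_
        rw [hI, mem_filter, mem_product, mem_product, mem_range, mem_range, mem_range] at hi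
        exact hmem i.1 i.2.1 i.2.2 (by omega) (by omega) hi.2.1 hi.2.2
    _ = (I.card : ℝ) * (N : ℝ) ^ (1 - κ) := by rw [sum_const, nsmul_eq_mul]
    _ ≤ (N : ℝ) ^ (3 * κ / 4) * (N : ℝ) ^ (1 - κ) := by gcongr
    _ = (N : ℝ) ^ (1 - κ / 4) := by
        rw [hadd]
        congr 1
        ring
    _ ≤ (N : ℝ) ^ (1 - κ / 8) := hmon (by linarith)

end Pool.Agent.Results.MP_26a8c3_nt.PositionsAlongRealMultiples
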