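import Pool.Agent.Q138.PS.XH
import Pool.Agent.Q138.PS.UZ
import Pool.Agent.Results.MP_26a8c3_nt.AlmostAllPositions

/-!
# The inequality of Brun and Titchmarsh close to the powers of a real number

Let `1 / 2 ≤ t < 1`, `0 < θ ≤ t`, `κ ≥ 0` and `l < 1`. Outside a set of real numbers of Hausdorff dimension at most
`(2 t - θ + 2 κ) / (1 - l)` every `α > 1` has the following property. For all algebraic numbers `c > 0`, all integers `j`, all
`D`, all `δ > 0` and all large `n`: for all integers `M` with `|M - c n^j α^n| ≤ D (c n^j α^n)^l`, ALL moduli `k ≤ M ^ κ`, ALL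
residues `r` prime to `k` and ALL `H` with `M ^ θ ≤ H ≤ M ^ t` the number of the primes `p ≡ r (mod k)` with
`k M < p ≤ k (M + H)` is at most `(2 / t + δ) k H / (φ(k) log M)`.
-/

set_option autoImplicit false

namespace Pool.Agent.Results.MP_26a8c3_nt.PositionsNearPowers

open Finset Filter Topology
open Pool.Agent.Q138.PS
open Pool.Agent.Results.MP_26a8c3_nt.AlmostAllPositions (primeCount)

/-- the inequality `N(k (M + H), k H; k, r) ≤ (2 / t + δ) k H / (φ(k) log M)`, without division -/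
def Holds (t δ : ℝ) (k : ℕ) (r : ℤ) (H M : ℕ) : Prop :=
  Nat.totient k * Real.log M * primeCount (k * (M + H)) (k * H) k r ≤ (2 / t + δ) * (k * H)

/-- the inequality holds for all moduli `k ≤ M ^ κ`, all reduced residue classes and all `H` between `M ^ θ` and `M ^ t` -/
def Good (t θ κ δ : ℝ) (M : ℕ) : Prop :=
  ∀ (k : ℕ) (r : ℤ) (H : ℕ), 1 ≤ k → (k : ℝ) ≤ (M : ℝ) ^ κ → Int.gcd r k = 1 → (M : ℝ) ^ θ ≤ H → (H : ℝ) ≤ (M : ℝ) ^ t →
    Holds t δ k r H M

/-- the positions for which the inequality fails -/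
def Bad (t θ κ δ : ℝ) : Set ℕ := {M | 1 ≤ M ∧ ¬ Good t θ κ δ M}

theorem pc_mono {k : ℕ} {l : ℤ} {H H' M : ℕ} (h : H ≤ H') :
    primeCount (k * (M + H)) (k * H) k l ≤ primeCount (k * (M + H')) (k * H') k l := by
  unfold primeCount
  refine card_le_card ?_
  intro p hp
  rw [mem_filter, mem_Ioc] at hp ⊢
  have e : ∀ G : ℕ, k * (M + G) - k * G = k * M := fun G => by rw [mul_add, Nat.add_sub_cancel]
  rw [e] at hp ⊢
  refine ⟨⟨hp.1.1, hp.1.2.trans ?_⟩, hp.2⟩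
  exact Nat.mul_le_mul_left k (by omega)

theorem pc_mod (k : ℕ) (l : ℤ) (x y : ℕ) : primeCount x y k l = primeCount x y k (l % k) := by
  unfold primeCount
  refine congrArg _ (filter_congr fun p _ => and_congr_right fun _ => ?_)
  exact ⟨fun h => h.trans (Int.mod_modEq l k).symm, fun h => h.trans (Int.mod_modEq l k)⟩

open Classical in
theorem count (t θ κ δ : ℝ) (ht : 1 / 2 ≤ t) (ht1 : t < 1) (hθ : 0 < θ) (hθt : θ ≤ t) (hκ : 0 ≤ κ) (hδ : 0 < δ) :
    ∀ ε : ℝ, 0 < ε → ∃ C : ℝ, ∀ T : ℝ, 1 ≤ T → (({m | m ∈ Bad t θ κ δ ∧ (m : ℝ) ≤ T}).ncard : ℝ) ≤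
      C * T ^ (2 * κ + (2 * t - θ) + ε) := by
  refine count_param (Bad t θ κ δ) (2 * κ) (2 * t - θ) (by linarith) fun ε hε => ?_
  set δ' : ℝ := δ / 2 with hδ'
  have hδ'0 : 0 < δ' := by positivity
  set s : ℝ := min (δ / (4 * (4 + δ))) (1 / 4) with hs
  have hs0 : 0 < s := by positivity
  have hs1 : s ≤ δ / (4 * (4 + δ)) := min_le_left _ _
  have hs4 : s ≤ 1 / 4 := min_le_right _ _
  obtain ⟨X₀, hX⟩ := AlmostAllPositions.result (κ + 1) t δ' ε (by linarith) ht ht1 hδ'0 hε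
  have hr : ∀ s : ℝ, 0 < s → Tendsto (fun N : ℕ => (N : ℝ) ^ s) atTop atTop := fun s hs =>
    (tendsto_rpow_atTop hs).comp tendsto_natCast_atTop_atTop
  have hl0 : 0 < Real.log (1 + s) := Real.log_pos (by linarith)
  refine ⟨max (4 : ℝ) (2 * 4 ^ (2 * t + ε)), ?_⟩
  filter_upwards [scales_few hs0 t (ε / 2) (by linarith) (by positivity), eventually_ge_atTop (X₀ + 1),
    (hr θ hθ).eventually_ge_atTop (2 * (1 / s + 1)), (hr (ε / 2) (by positivity)).eventually_ge_atTop 2] with T hT1 hT2 hT3 hT4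
  have hTn : 1 ≤ T := by omega
  have hTr : (1 : ℝ) ≤ T := by exact_mod_cast hTn
  have hT0 : (0 : ℝ) < T := by linarith
  have hadd : ∀ a b : ℝ, (T : ℝ) ^ a * (T : ℝ) ^ b = (T : ℝ) ^ (a + b) := fun a b => (Real.rpow_add hT0 a b).symm
  have hmon : ∀ {a b : ℝ}, a ≤ b → (T : ℝ) ^ a ≤ (T : ℝ) ^ b := fun h => Real.rpow_le_rpow_of_exponent_le hTr h
  have hTκ : (1 : ℝ) ≤ (T : ℝ) ^ κ := Real.one_le_rpow hTr hκ
  set V : ℕ := ⌊(T : ℝ) ^ κ⌋₊ with hV
  set W : ℕ := ⌊(T : ℝ) ^ (ε / 2)⌋₊ with hW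
  have hVr : (V : ℝ) ≤ (T : ℝ) ^ κ := Nat.floor_le (by positivity)
  have hWr : (W : ℝ) ≤ (T : ℝ) ^ (ε / 2) := Nat.floor_le (by positivity)
  have hV1 : 1 ≤ V := by
    rw [hV]
    exact Nat.le_floor (by exact_mod_cast hTκ)
  refine ⟨ℕ × ℕ × ℕ, ((Icc 1 V) ×ˢ (range V) ×ˢ (range W)).filter
      (fun i => Int.gcd (i.2.1 : ℤ) i.1 = 1 ∧ (T : ℝ) ^ θ / 2 ≤ sca s i.2.2 ∧ (sca s i.2.2 : ℝ) ≤ 2 * (T : ℝ) ^ t),
    fun i => (Icc 1 (4 * T)).filter (fun M : ℕ =>
        (2 / t + δ') * (i.1 * sca s i.2.2 / (Nat.totient i.1 * Real.log ((4 * T : ℕ) : ℝ))) <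
          (primeCount (i.1 * (M + sca s i.2.2)) (i.1 * sca s i.2.2) i.1 i.2.1 : ℝ)), ?_, ?_, ?_⟩
  · have h1 : ((((Icc 1 V) ×ˢ (range V) ×ˢ (range W)).filter
      (fun i => Int.gcd (i.2.1 : ℤ) i.1 = 1 ∧ (T : ℝ) ^ θ / 2 ≤ sca s i.2.2 ∧ (sca s i.2.2 : ℝ) ≤ 2 * (T : ℝ) ^ t)).card : ℝ) ≤
        (V : ℝ) * (V * W) := by
      have h2 := card_filter_le ((Icc 1 V) ×ˢ (range V) ×ˢ (range W))
        (fun i => Int.gcd (i.2.1 : ℤ) i.1 = 1 ∧ (T : ℝ) ^ θ / 2 ≤ sca s i.2.2 ∧ (sca s i.2.2 : ℝ) ≤ 2 * (T : ℝ) ^ t)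
      rw [card_product, card_product, Nat.card_Icc, card_range, card_range, Nat.add_sub_cancel] at h2
      exact_mod_cast h2
    refine h1.trans ?_
    have h3 : (V : ℝ) * (V * W) ≤ (T : ℝ) ^ κ * ((T : ℝ) ^ κ * (T : ℝ) ^ (ε / 2)) := by gcongr
    refine h3.trans ?_
    rw [hadd, hadd]
    have h4 : (T : ℝ) ^ (κ + (κ + ε / 2)) ≤ (T : ℝ) ^ (2 * κ + ε) := hmon (by linarith)
    have h5 : (0 : ℝ) < (T : ℝ) ^ (2 * κ + ε) := by positivity
    have h6 : (1 : ℝ) ≤ max (4 : ℝ) (2 * 4 ^ (2 * t + ε)) := le_trans (by norm_num) (le_max_left _ _)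
    nlinarith
  · intro i hi
    rw [mem_filter, mem_product, mem_product, mem_Icc, mem_range, mem_range] at hi
    obtain ⟨⟨⟨h1, h2⟩, h3, h4⟩, h5, h6, h7⟩ := hi
    have h8 : (0 : ℝ) < sca s i.2.2 := lt_of_lt_of_le (by positivity) h6
    have h9 : 1 ≤ sca s i.2.2 := by
      have : 0 < sca s i.2.2 := by exact_mod_cast h8
      omega
    have hX4 : (1 : ℝ) ≤ ((4 * T : ℕ) : ℝ) := by
      push_cast
      linarith
    have h10 : (i.1 : ℝ) ≤ ((4 * T : ℕ) : ℝ) ^ (κ + 1) := by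
      calc (i.1 : ℝ) ≤ V := by exact_mod_cast h2
        _ ≤ (T : ℝ) ^ κ := hVr
        _ ≤ ((4 * T : ℕ) : ℝ) ^ κ := Real.rpow_le_rpow hT0.le (by push_cast; linarith) hκ
        _ ≤ ((4 * T : ℕ) : ℝ) ^ (κ + 1) := Real.rpow_le_rpow_of_exponent_le hX4 (by linarith)
    have h11 : (sca s i.2.2 : ℝ) ≤ ((4 * T : ℕ) : ℝ) ^ t := by
      refine h7.trans ?_
      push_cast
      rw [Real.mul_rpow (by norm_num) hT0.le]
      have h12 : (2 : ℝ) ≤ 4 ^ t := by
        calc (2 : ℝ) = 4 ^ ((1 : ℝ) / 2) := by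
              rw [show (4 : ℝ) = 2 ^ (2 : ℝ) by norm_num, ← Real.rpow_mul (by norm_num)]
              norm_num
          _ ≤ 4 ^ t := Real.rpow_le_rpow_of_exponent_le (by norm_num) ht
      gcongr
    have h12 := hX (4 * T) (by omega) i.1 (i.2.1 : ℤ) h1 h10 h5 (sca s i.2.2) h9 h11
    refine le_trans ?_ (h12.trans ?_)
    · refine le_of_eq ?_
      congr 2
    · have h13 : ((4 * T : ℕ) : ℝ) ^ (2 * t + ε) = 4 ^ (2 * t + ε) * (T : ℝ) ^ (2 * t + ε) := by
        push_cast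
        rw [Real.mul_rpow (by norm_num) hT0.le]
      rw [h13, div_le_iff₀ h8]
      have h14 : (T : ℝ) ^ (2 * t + ε) = (T : ℝ) ^ (2 * t - θ + ε) * (T : ℝ) ^ θ := by
        rw [hadd]
        congr 1
        ring
      rw [h14]
      have h15 : 2 * 4 ^ (2 * t + ε) ≤ max (4 : ℝ) (2 * 4 ^ (2 * t + ε)) := le_max_right _ _
      have h16 : (0 : ℝ) < (T : ℝ) ^ (2 * t - θ + ε) := by positivity
      calc (4 : ℝ) ^ (2 * t + ε) * ((T : ℝ) ^ (2 * t - θ + ε) * (T : ℝ) ^ θ) =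
            2 * 4 ^ (2 * t + ε) * (T : ℝ) ^ (2 * t - θ + ε) * ((T : ℝ) ^ θ / 2) := by ring
        _ ≤ max (4 : ℝ) (2 * 4 ^ (2 * t + ε)) * (T : ℝ) ^ (2 * t - θ + ε) * sca s i.2.2 := by
            gcongr
  · intro M hM hMT hTM
    obtain ⟨hM1, hM2⟩ := hM
    unfold Good at hM2
    push Not at hM2
    obtain ⟨k, r, H, hk1, hk2, hkr, hH1, hH2, hb⟩ := hM2
    have hMr : (1 : ℝ) ≤ M := by exact_mod_cast hM1
    have hMT' : (M : ℝ) ≤ T := by exact_mod_cast hMT
    have hTM' : (T : ℝ) / 2 ≤ M := by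
      have : (T : ℝ) ≤ 2 * M := by exact_mod_cast hTM
      linarith
    have hHT : (T : ℝ) ^ θ / 2 ≤ H := by
      refine le_trans ?_ hH1
      have h1 : ((T : ℝ) / 2) ^ θ ≤ (M : ℝ) ^ θ := Real.rpow_le_rpow (by positivity) hTM' hθ.le
      refine le_trans ?_ h1
      rw [Real.div_rpow hT0.le (by norm_num)]
      have h2 : (2 : ℝ) ^ θ ≤ 2 := by
        calc (2 : ℝ) ^ θ ≤ 2 ^ (1 : ℝ) := Real.rpow_le_rpow_of_exponent_le (by norm_num) (by linarith)
          _ = 2 := Real.rpow_one _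
      gcongr
    have hHs : 1 / s + 1 ≤ H := by linarith
    have hHr0 : (0 : ℝ) < H := lt_of_lt_of_le (by positivity) hHs
    have hH0 : 1 ≤ H := by
      have : 0 < H := by exact_mod_cast hHr0
      omega
    obtain ⟨m, hm1, hm2, hm3⟩ := sca_close hs0 hH0 (by linarith)
    have hHt : (H : ℝ) ≤ (T : ℝ) ^ t := hH2.trans (Real.rpow_le_rpow (by linarith) hMT' (by linarith))
    have hkV : k ≤ V := Nat.le_floor (hk2.trans (Real.rpow_le_rpow (by linarith) hMT' hκ))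
    have hlk0 : 0 ≤ r % (k : ℤ) := Int.emod_nonneg _ (by exact_mod_cast (by omega : k ≠ 0))
    have hlk : r % (k : ℤ) < k := Int.emod_lt_of_pos _ (by exact_mod_cast (by omega : 0 < k))
    have hmW : m < W := by
      have h5 : Real.log H ≤ t * Real.log T := by
        rw [← Real.log_rpow hT0]
        exact Real.log_le_log hHr0 hHt
      have h6 : (m : ℝ) + 1 ≤ (T : ℝ) ^ (ε / 2) := by
        refine le_trans ?_ hT1
        have h7 : (m : ℝ) ≤ (t * Real.log T + Real.log (1 + s)) / Real.log (1 + s) := by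
          rw [le_div_iff₀ hl0]
          linarith
        linarith
      have h7 : m + 1 ≤ W := Nat.le_floor (by push_cast; exact h6)
      omega
    refine ⟨(k, (r % (k : ℤ)).toNat, m), ?_, ?_⟩
    · rw [mem_filter, mem_product, mem_product, mem_Icc, mem_range, mem_range]
      refine ⟨⟨⟨hk1, hkV⟩, ?_, hmW⟩, ?_, ?_, ?_⟩
      · show (r % (k : ℤ)).toNat < V
        omega
      · show Int.gcd (((r % (k : ℤ)).toNat : ℕ) : ℤ) k = 1
        rw [Int.toNat_of_nonneg hlk0, Int.gcd_emod]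
        exact hkr
      · exact hHT.trans (by exact_mod_cast hm1)
      · calc (sca s m : ℝ) ≤ (1 + 2 * s) * H := hm2
          _ ≤ 2 * (T : ℝ) ^ t := by
              gcongr
              linarith
    · rw [mem_filter, mem_Icc]
      refine ⟨⟨hM1, by omega⟩, ?_⟩
      have hb' : (2 / t + δ) * ((k : ℝ) * H) < Nat.totient k * Real.log M * primeCount (k * (M + H)) (k * H) k r := not_le.1 hb
      show (2 / t + δ') * ((k : ℝ) * (sca s m : ℕ) / (Nat.totient k * Real.log ((4 * T : ℕ) : ℝ))) <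
          (primeCount (k * (M + sca s m)) (k * sca s m) k (((r % (k : ℤ)).toNat : ℕ) : ℤ) : ℝ)
      rw [Int.toNat_of_nonneg hlk0, ← pc_mod]
      have hφ : (0 : ℝ) < Nat.totient k := by exact_mod_cast Nat.totient_pos.2 (by omega)
      have hlT : 0 < Real.log ((4 * T : ℕ) : ℝ) := Real.log_pos (by push_cast; linarith)
      have hlM : Real.log M ≤ Real.log ((4 * T : ℕ) : ℝ) :=
        Real.log_le_log (by linarith) (by push_cast; linarith)
      have ht0 : 0 < t := by linarith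
      have ht4 : 2 / t ≤ 4 := by
        rw [div_le_iff₀ ht0]
        linarith
      have h5 : (2 / t + δ') * ((k : ℝ) * (sca s m)) ≤ (2 / t + δ) * (k * H) := by
        have h6 : (2 / t + δ') * (1 + 2 * s) ≤ 2 / t + δ := by
          have h7 : (2 / t + δ') * (2 * s) ≤ (4 + δ) * (2 * (δ / (4 * (4 + δ)))) := by
            have : 2 / t + δ' ≤ 4 + δ := by
              rw [hδ']
              linarith
            gcongr
          have h8 : (4 + δ) * (2 * (δ / (4 * (4 + δ)))) = δ / 2 := by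
            field_simp
            ring
          rw [h8] at h7
          rw [mul_add, mul_one, hδ'] at *
          linarith
        have h9 : 0 ≤ 2 / t + δ' := by positivity
        calc (2 / t + δ') * ((k : ℝ) * (sca s m)) ≤ (2 / t + δ') * ((k : ℝ) * ((1 + 2 * s) * H)) := by gcongr
          _ = (2 / t + δ') * (1 + 2 * s) * (k * H) := by ring
          _ ≤ (2 / t + δ) * (k * H) := by gcongr
      have h7 : (primeCount (k * (M + H)) (k * H) k r : ℝ) ≤ primeCount (k * (M + sca s m)) (k * sca s m) k r := by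
        exact_mod_cast pc_mono hm1
      have h8 : (2 / t + δ') * ((k : ℝ) * (sca s m)) <
          Nat.totient k * Real.log ((4 * T : ℕ) : ℝ) * primeCount (k * (M + sca s m)) (k * sca s m) k r := by
        refine h5.trans_lt (hb'.trans_le ?_)
        gcongr
      rw [← mul_div_assoc, div_lt_iff₀ (by positivity)]
      linarith

/-- **Theorem.** Let `1 / 2 ≤ t < 1`, `0 < θ ≤ t`, `κ ≥ 0` and `l < 1`. There is a set `E` of real numbers of Hausdorff
dimension at most `(2 t - θ + 2 κ) / (1 - l)` such that for each `α > 1` outside `E`, all algebraic `c > 0`, all integers `j`,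
all `D`, all `δ > 0` and all large `n`, all `M` with `|M - c n^j α^n| ≤ D (c n^j α^n)^l` are `Good`: for ALL moduli
`1 ≤ k ≤ M ^ κ`, ALL `r` prime to `k` and ALL `H` with `M ^ θ ≤ H ≤ M ^ t` the number of the primes `p ≡ r (mod k)` with
`k M < p ≤ k (M + H)` is at most `(2 / t + δ) k H / (φ(k) log M)`. -/
theorem result (t θ κ l : ℝ) (ht : 1 / 2 ≤ t) (ht1 : t < 1) (hθ : 0 < θ) (hθt : θ ≤ t) (hκ : 0 ≤ κ) (hl : l < 1) :
    ∃ E : Set ℝ, dimH E ≤ ENNReal.ofReal ((2 * t - θ + 2 * κ) / (1 - l)) ∧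
      ∀ α : ℝ, 1 < α → α ∉ E → ∀ c : ℝ, 0 < c → IsAlgebraic ℚ c → ∀ (j : ℤ) (D δ : ℝ), 0 < δ → ∀ᶠ n : ℕ in atTop,
        ∀ M : ℕ, 1 ≤ M → NearPow α c j D l n M → Good t θ κ δ M := by
  obtain ⟨E, hE, hg⟩ := pow_alg (fun d : ℕ => Bad t θ κ (1 / ((d : ℝ) + 1))) (2 * κ + (2 * t - θ)) l (by linarith) hl
    fun d => count t θ κ (1 / ((d : ℝ) + 1)) ht ht1 hθ hθt hκ (by positivity)
  refine ⟨E, hE.trans (le_of_eq ?_), fun α hα hαE c hc hca j D δ hδ => ?_⟩
  · congr 2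
    ring
  · obtain ⟨d, hd⟩ := exists_nat_one_div_lt hδ
    filter_upwards [hg α hα hαE d c hc hca j D] with n hn M hM1 hM
    have h1 := hn M hM
    have h2 : Good t θ κ (1 / ((d : ℝ) + 1)) M := by
      by_contra hcon
      exact h1 ⟨hM1, hcon⟩
    intro k r H h3 h4 h5 h6 h7
    refine (h2 k r H h3 h4 h5 h6 h7).trans ?_
    gcongr

end Pool.Agent.Results.MP_26a8c3_nt.PositionsNearPowers
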