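import Pool.Agent.Q138.PS.UZ
import Pool.Agent.Q84.NX.Core
import Pool.Agent.Q84.MB.F4
import Pool.Agent.Results.MP_26a8c3_nt.AlmostAllPositions

/-!
# The inequality of Brun and Titchmarsh near all small multiples of the primes of a string

Let `0 < τ < 1` and `δ > 0`. There is `c > 0` and for all `κ > 0` and `m` there is `c' > 0` and for every `Z` a number
`D` with the following property. For every large `X` there is a set `S` of at most `(log X) ^ (49 / 50)` primes, all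
larger than `Z`, such that for EVERY function `f` with values `1` and `-1` on the primes at least `X ^ (1 - κ)` integers
`n`, `X < n ≤ 3X`, satisfy: the interval `[n, n + D]` contains at least `m` primes, and for every prime `p` in it

* the Legendre symbol `(p / q)` is `f q` for all odd primes `q ≤ c' log X` outside `S`;
* for ALL integers `1 ≤ j ≤ p ^ c`, ALL `M` with `|M - j p| ≤ p ^ c`, ALL moduli `1 ≤ k ≤ p ^ c`, ALL `l` prime to `k`
  and ALL `H` with `p ^ τ ≤ H ≤ p ^ ((1 + 3 τ) / 4)` the number of primes `≡ l (mod k)` in `(k M, k (M + H)]` is at most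
  `(4 / (1 + τ) + δ) k H / (φ(k) log M)`.

For `H = p ^ τ` and `j = 1` this is the inequality of Brun and Titchmarsh with the constant `4 τ / (1 + τ) + δ'` in place
of `2`.
-/

set_option autoImplicit false

open scoped Classical

namespace Pool.Agent.Results.MP_26a8c3_nt.StringsNearMultiples

open Finset Filter Topology
open Pool.Agent.Q138.PS (sca sca_close)
open Pool.Agent.Results.MP_26a8c3_nt.AlmostAllPositions (primeCount)

/-- the inequality `N(k (M + H), k H; k, l) ≤ A k H / (φ(k) log M)` fails -/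
def Bad (A : ℝ) (k : ℕ) (l : ℤ) (H M : ℕ) : Prop :=
  A * (k * H) < Nat.totient k * Real.log M * primeCount (k * (M + H)) (k * H) k l

/-- the inequality holds near all multiples `j p`, `j ≤ p ^ c`, for all moduli, all classes and all lengths -/
def Fine (τ δ c : ℝ) (p : ℕ) : Prop :=
  ∀ (j M k : ℕ) (l : ℤ) (H : ℕ), 1 ≤ j → (j : ℝ) ≤ (p : ℝ) ^ c → |(M : ℝ) - j * p| ≤ (p : ℝ) ^ c →
    1 ≤ k → (k : ℝ) ≤ (p : ℝ) ^ c → Int.gcd l k = 1 → (p : ℝ) ^ τ ≤ H → (H : ℝ) ≤ (p : ℝ) ^ ((1 + 3 * τ) / 4) →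
    (primeCount (k * (M + H)) (k * H) k l : ℝ) ≤ (4 / (1 + τ) + δ) * (k * H / (Nat.totient k * Real.log M))

theorem pc_mono {k : ℕ} {l : ℤ} {H H' M : ℕ} (h : H ≤ H') :
    primeCount (k * (M + H)) (k * H) k l ≤ primeCount (k * (M + H')) (k * H') k l := by
  unfold primeCount
  refine card_le_card ?_
  intro p hp
  rw [mem_filter, mem_Ioc] at hp ⊢
  have e : ∀ G : ℕ, k * (M + G) - k * G = k * M := fun G => by rw [mul_add, Nat.add_sub_cancel]
  rw [e] at hp ⊢
  refine ⟨⟨hp.1.1, hp.1.2.trans ?_⟩, hp.2⟩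
  exact Nat.mul_le_mul_left k (by omega)

theorem pc_mod (k : ℕ) (l : ℤ) (x y : ℕ) : primeCount x y k l = primeCount x y k (l % k) := by
  unfold primeCount
  refine congrArg _ (filter_congr fun p _ => and_congr_right fun _ => ?_)
  exact ⟨fun h => h.trans (Int.mod_modEq l k).symm, fun h => h.trans (Int.mod_modEq l k)⟩

/-- the counting of the bad sets -/
theorem few (t δ ε : ℝ) (ht1 : 1 / 2 ≤ t) (ht : t < 1) (hδ : 0 < δ) (hε : 0 < ε) :
    ∃ X₀ : ℕ, ∀ Y : ℕ, X₀ ≤ Y → ∀ (k : ℕ) (l : ℤ), 1 ≤ k →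
    (k : ℝ) ≤ (Y : ℝ) ^ (1 : ℝ) → Int.gcd l k = 1 → ∀ H : ℕ, 1 ≤ H → (H : ℝ) ≤ (Y : ℝ) ^ t →
    (((Icc 1 Y).filter fun M => Bad (2 / t + δ) k l H M).card : ℝ) ≤ (Y : ℝ) ^ (2 * t + ε) / H := by
  obtain ⟨X₀, h⟩ := AlmostAllPositions.result 1 t δ ε (by norm_num) ht1 ht hδ hε
  refine ⟨X₀ + 2, fun Y hY k l hk hkY hkl H hH hHY => ?_⟩
  have h1 := h Y (by omega) k l hk hkY hkl H hH hHY
  refine le_trans ?_ h1
  refine Nat.cast_le.2 (card_le_card ?_)
  intro M hM
  rw [mem_filter, mem_Icc] at hM ⊢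
  refine ⟨hM.1, ?_⟩
  have h3 := hM.2
  unfold Bad at h3
  have hY1 : (1 : ℝ) < Y := by exact_mod_cast (by omega : 1 < Y)
  have hlY : 0 < Real.log Y := Real.log_pos hY1
  have hφ : (0 : ℝ) < Nat.totient k := by exact_mod_cast Nat.totient_pos.2 (by omega)
  have hlM : Real.log M ≤ Real.log Y :=
    Real.log_le_log (by exact_mod_cast hM.1.1) (by exact_mod_cast hM.1.2)
  have h4 : (2 / t + δ) * ((k : ℝ) * H) < Nat.totient k * Real.log Y * primeCount (k * (M + H)) (k * H) k l := by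
    refine h3.trans_le ?_
    gcongr
  have h5 : (2 / t + δ) * (k * H / (Nat.totient k * Real.log Y)) =
      (2 / t + δ) * ((k : ℝ) * H) / (Nat.totient k * Real.log Y) := by ring
  rw [h5, div_lt_iff₀ (by positivity)]
  linarith

/-- **Theorem.** -/
theorem result (τ : ℝ) (hτ : 0 < τ) (hτ1 : τ < 1) (δ : ℝ) (hδ : 0 < δ) : ∃ c : ℝ, 0 < c ∧
    ∀ κ : ℝ, 0 < κ → ∀ m : ℕ, ∃ c' : ℝ, 0 < c' ∧
    ∀ Z : ℕ, ∃ D : ℕ, ∃ X₀ : ℝ, ∀ X : ℝ, X₀ ≤ X →
    ∃ S : Finset ℕ, (∀ q ∈ S, q.Prime ∧ Z < q) ∧ (S.card : ℝ) ≤ (Real.log X) ^ (49 / 50 : ℝ) ∧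
    ∀ f : ℕ → ℤ, (∀ q, f q = 1 ∨ f q = -1) →
      X ^ (1 - κ) ≤ (((Icc 1 ⌊3 * X⌋₊).filter fun n : ℕ => X < n ∧
        m ≤ ((Icc n (n + D)).filter Nat.Prime).card ∧
        ∀ p ∈ Icc n (n + D), p.Prime → Fine τ δ c p ∧
          ∀ q : ℕ, q.Prime → q ≠ 2 → (q : ℝ) ≤ c' * Real.log X → q ∉ S → jacobiSym p q = f q).card : ℝ) := by
  -- the constants
  obtain ⟨s, hs⟩ : ∃ s, s = min (min (τ / 2) ((1 - τ) / 4)) (δ / 32) := ⟨_, rfl⟩
  have hs0 : 0 < s := by rw [hs]; exact lt_min (lt_min (by positivity) (by linarith)) (by positivity)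
  have hs1 : s ≤ τ / 2 := by rw [hs]; exact (min_le_left _ _).trans (min_le_left _ _)
  have hs2 : s ≤ (1 - τ) / 4 := by rw [hs]; exact (min_le_left _ _).trans (min_le_right _ _)
  have hs3 : s ≤ δ / 32 := by rw [hs]; exact min_le_right _ _
  obtain ⟨t, ht⟩ : ∃ t, t = (1 + τ) / 2 - s := ⟨_, rfl⟩
  have ht12 : 1 / 2 ≤ t := by rw [ht]; linarith
  have ht1 : t < 1 := by rw [ht]; linarith
  have ht3 : (1 + 3 * τ) / 4 ≤ t := by rw [ht]; linarith
  have h2t : 2 * t = 1 + τ - 2 * s := by rw [ht]; ring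
  obtain ⟨A, hA⟩ : ∃ A, A = 4 / (1 + τ) + δ := ⟨_, rfl⟩
  obtain ⟨A', hA'⟩ : ∃ A', A' = 2 / t + δ / 4 := ⟨_, rfl⟩
  have hA'0 : 0 < A' := by rw [hA']; positivity
  have hAA' : A' ≤ A - δ / 2 := by
    have h1 : 2 / t ≤ 4 / (1 + τ) + δ / 4 := by
      rw [div_le_iff₀ (by linarith), add_mul, div_mul_eq_mul_div, ← sub_le_iff_le_add, le_div_iff₀ (by linarith)]
      have h2 : 1 / 2 ≤ t * (1 + τ) := by nlinarith
      have h3 : δ / 4 * (1 / 2) ≤ δ / 4 * (t * (1 + τ)) := mul_le_mul_of_nonneg_left h2 (by positivity)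
      have h4 : (2 - δ / 4 * t) * (1 + τ) = 2 * (1 + τ) - δ / 4 * (t * (1 + τ)) := by ring
      rw [h4]
      linarith
    rw [hA, hA']
    linarith
  have hA4 : A ≤ 4 + δ := by
    rw [hA]
    have : 4 / (1 + τ) ≤ 4 := div_le_self (by norm_num) (by linarith)
    linarith
  obtain ⟨u, hu⟩ : ∃ u, u = min (δ / (4 * (4 + δ))) (1 / 2) := ⟨_, rfl⟩
  have hu0 : 0 < u := by rw [hu]; exact lt_min (by positivity) (by norm_num)
  have hu1 : u ≤ 1 / 2 := by rw [hu]; exact min_le_right _ _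
  have hu2 : u * (4 * (4 + δ)) ≤ δ := by
    have : u ≤ δ / (4 * (4 + δ)) := by rw [hu]; exact min_le_left _ _
    rwa [le_div_iff₀ (by positivity)] at this
  have hAu : A' * (1 + 2 * u) ≤ A := by
    have h1 : A' ≤ 4 + δ := by linarith
    have h2 : u * A' ≤ u * (4 + δ) := mul_le_mul_of_nonneg_left h1 hu0.le
    linarith
  obtain ⟨c, hc⟩ : ∃ c, c = s / 8 := ⟨_, rfl⟩
  have hc0 : 0 < c := by rw [hc]; positivity
  have hc1 : c < 1 := by rw [hc]; linarith
  obtain ⟨ε, hε⟩ : ∃ ε, ε = s / 4 := ⟨_, rfl⟩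
  have hε0 : 0 < ε := by rw [hε]; positivity
  obtain ⟨Y₀, hY₀⟩ := few t (δ / 4) ε ht12 ht1 (by positivity) hε0
  rw [← hA'] at hY₀
  refine ⟨c, hc0, fun κ hκ m => ?_⟩
  obtain ⟨η, hη⟩ : ∃ η, η = min κ (s / 2) := ⟨_, rfl⟩
  have hη0 : 0 < η := by rw [hη]; exact lt_min hκ (by positivity)
  have hη1 : η ≤ κ := by rw [hη]; exact min_le_left _ _
  have hη2 : η ≤ s / 2 := by rw [hη]; exact min_le_right _ _
  obtain ⟨c', hc', hmain⟩ := Pool.Agent.Q84.MB.sym_strings m η hη0
  refine ⟨c', hc', fun Z => ?_⟩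
  obtain ⟨D, hD⟩ := hmain Z
  have hl0 : 0 < Real.log (1 + u) := Real.log_pos (by linarith)
  -- the size conditions on X
  have hlog : ∀ᶠ X : ℝ in atTop, Real.log (4 * X) / Real.log (1 + u) + 2 ≤ X ^ c := by
    have hl : Tendsto (fun X : ℝ => Real.log X / X ^ c) atTop (𝓝 0) :=
      (isLittleO_log_rpow_atTop hc0).tendsto_div_nhds_zero
    filter_upwards [hl.eventually_lt_const (show (0 : ℝ) < Real.log (1 + u) / 2 by positivity),
      (tendsto_rpow_atTop hc0).eventually_ge_atTop (2 * (Real.log 4 / Real.log (1 + u) + 2)),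
      eventually_ge_atTop (1 : ℝ)] with X h1 h2 h3
    have h0 : (0 : ℝ) < X ^ c := by positivity
    rw [div_lt_iff₀ h0] at h1
    have h5 : Real.log X / Real.log (1 + u) ≤ X ^ c / 2 := by
      rw [div_le_iff₀ hl0]
      linarith
    rw [Real.log_mul (by norm_num) (by positivity), add_div]
    linarith
  obtain ⟨X₀, hX₀⟩ := eventually_atTop.1 ((((hD.and hlog).and ((tendsto_rpow_atTop
    (by positivity : (0 : ℝ) < s / 2)).eventually_ge_atTop 12288)).and (((tendsto_rpow_atTop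
    (by linarith : (0 : ℝ) < 1 - c)).eventually_gt_atTop (8 ^ (1 + c))).and ((tendsto_rpow_atTop
    hτ).eventually_ge_atTop (1 / u)))).and
    ((eventually_ge_atTop ((Y₀ : ℝ) + 32)).and ((tendsto_rpow_atTop hc0).eventually_ge_atTop 20)))
  refine ⟨D, X₀, fun X hX => ?_⟩
  obtain ⟨⟨⟨⟨⟨S, hS1, hS2, hS3⟩, hlX⟩, hXs⟩, hX8, hXτ⟩, hXY, hXc⟩ := hX₀ X hX
  have hY₀r : (0 : ℝ) ≤ Y₀ := Nat.cast_nonneg _
  have hX32 : 32 ≤ X := by linarith
  have hX0 : 0 < X := by linarith
  have hX1 : 1 ≤ X := by linarith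
  refine ⟨S, hS1, hS2, fun f hf => ?_⟩
  obtain ⟨V, hV⟩ : ∃ V, V = ⌊(4 * X) ^ c⌋₊ := ⟨_, rfl⟩
  have h4c : X ^ c ≤ (4 * X) ^ c := Real.rpow_le_rpow hX0.le (by linarith) hc0.le
  have hVle : (V : ℝ) ≤ (4 * X) ^ c := by rw [hV]; exact Nat.floor_le (by positivity)
  have hV1 : (V : ℝ) + 1 ≤ 2 * (4 * X) ^ c := by linarith
  obtain ⟨Y, hY⟩ : ∃ Y, Y = ⌊(8 * X) ^ (1 + c)⌋₊ := ⟨_, rfl⟩
  have hYle : (Y : ℝ) ≤ (8 * X) ^ (1 + c) := by rw [hY]; exact Nat.floor_le (by positivity)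
  have h8c : 8 * X * X ^ c ≤ (8 * X) ^ (1 + c) := by
    rw [Real.rpow_add (by positivity), Real.rpow_one]
    apply mul_le_mul_of_nonneg_left _ (by positivity)
    exact Real.rpow_le_rpow hX0.le (by linarith) hc0.le
  have hY16 : 16 * X + 1 ≤ Y := by
    have h0 := mul_le_mul_of_nonneg_left hXc (by positivity : (0 : ℝ) ≤ 8 * X)
    have h1 : 16 * X + 2 ≤ (8 * X) ^ (1 + c) := by linarith
    have h2 := Nat.sub_one_lt_floor ((8 * X) ^ (1 + c))
    rw [← hY] at h2
    linarith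
  have hYY₀ : Y₀ ≤ Y := by
    have : (Y₀ : ℝ) ≤ Y := by linarith
    exact_mod_cast this
  have hY0 : (0 : ℝ) < Y := by linarith
  have hYX2 : (Y : ℝ) < X ^ (0 + 2) := by
    refine hYle.trans_lt ?_
    rw [Real.mul_rpow (by norm_num) hX0.le]
    have e : X ^ (0 + 2) = X ^ (1 - c) * X ^ (1 + c) := by
      rw [← Real.rpow_add hX0, show (1 - c) + (1 + c) = (2 : ℕ) by push_cast; ring, Real.rpow_natCast]
    rw [e]
    exact mul_lt_mul_of_pos_right hX8 (by positivity)
  -- the exceptional positions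
  obtain ⟨I, hI⟩ : ∃ I : Finset (ℕ × ℕ × ℕ), I = (range (V + 1) ×ˢ range (V + 1) ×ˢ range (V + 1)).filter
    (fun i => 1 ≤ i.1 ∧ Int.gcd (i.2.1 : ℤ) i.1 = 1 ∧ X ^ τ ≤ sca u i.2.2 ∧ (sca u i.2.2 : ℝ) ≤ (Y : ℝ) ^ t) := ⟨_, rfl⟩
  obtain ⟨R, hR⟩ : ∃ R : ℕ → Prop, R = fun M => ∃ i ∈ I, 1 ≤ M ∧ Bad A' i.1 (i.2.1 : ℤ) (sca u i.2.2) M := ⟨_, rfl⟩
  have hRc : (((range (Y + 1)).filter R).card : ℝ) ≤ (2 * (4 * X) ^ c) ^ 3 * ((Y : ℝ) ^ (2 * t + ε) / X ^ τ) := by
    have hsub : (range (Y + 1)).filter R ⊆ I.biUnion fun i =>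
        (Icc 1 Y).filter fun M => Bad A' i.1 (i.2.1 : ℤ) (sca u i.2.2) M := by
      intro M hM
      rw [mem_filter, hR, mem_range] at hM
      obtain ⟨hMY, i, hi, hM1, hb⟩ := hM
      rw [mem_biUnion]
      exact ⟨i, hi, mem_filter.2 ⟨mem_Icc.2 ⟨hM1, by omega⟩, hb⟩⟩
    have h1 : ∀ i ∈ I, (((Icc 1 Y).filter fun M => Bad A' i.1 (i.2.1 : ℤ) (sca u i.2.2) M).card : ℝ) ≤
        (Y : ℝ) ^ (2 * t + ε) / X ^ τ := by
      intro i hi
      rw [hI, mem_filter, mem_product, mem_product, mem_range, mem_range, mem_range] at hi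
      obtain ⟨⟨hi1, hi2, hi3⟩, hi4, hi5, hi6, hi7⟩ := hi
      have hH0 : (0 : ℝ) < sca u i.2.2 := lt_of_lt_of_le (by positivity) hi6
      have hkY : ((i.1 : ℕ) : ℝ) ≤ (Y : ℝ) ^ (1 : ℝ) := by
        rw [Real.rpow_one]
        have h2 : ((i.1 : ℕ) : ℝ) ≤ V := by exact_mod_cast (by omega : i.1 ≤ V)
        have h3 : (4 * X) ^ c ≤ 4 * X := by
          calc (4 * X) ^ c ≤ (4 * X) ^ (1 : ℝ) := Real.rpow_le_rpow_of_exponent_le (by linarith) hc1.le
            _ = 4 * X := Real.rpow_one _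
        linarith
      refine (hY₀ Y hYY₀ i.1 (i.2.1 : ℤ) hi4 hkY hi5 (sca u i.2.2) (by
        have : 0 < sca u i.2.2 := by exact_mod_cast hH0
        omega) hi7).trans ?_
      gcongr
    calc (((range (Y + 1)).filter R).card : ℝ) ≤ ∑ i ∈ I,
        (((Icc 1 Y).filter fun M => Bad A' i.1 (i.2.1 : ℤ) (sca u i.2.2) M).card : ℝ) := by
          have := (card_le_card hsub).trans card_biUnion_le
          exact_mod_cast this
      _ ≤ ∑ _i ∈ I, (Y : ℝ) ^ (2 * t + ε) / X ^ τ := sum_le_sum h1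
      _ = I.card * ((Y : ℝ) ^ (2 * t + ε) / X ^ τ) := by rw [sum_const, nsmul_eq_mul]
      _ ≤ (2 * (4 * X) ^ c) ^ 3 * ((Y : ℝ) ^ (2 * t + ε) / X ^ τ) := by
          apply mul_le_mul_of_nonneg_right _ (by positivity)
          have h2 : I.card ≤ (V + 1) * ((V + 1) * (V + 1)) := by
            rw [hI]
            refine (card_filter_le _ _).trans ?_
            rw [card_product, card_product, card_range]
          have h3 : (I.card : ℝ) ≤ ((V : ℝ) + 1) ^ 3 := by
            have : (I.card : ℝ) ≤ ((V + 1) * ((V + 1) * (V + 1)) : ℕ) := by exact_mod_cast h2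
            refine this.trans (le_of_eq ?_)
            push_cast
            ring
          exact h3.trans (pow_le_pow_left₀ (by positivity) hV1 3)
  -- the primes with an exceptional position near a multiple
  have hcore := Pool.Agent.Q84.NX.near_core R 0 Y V X hX1 hYX2 ⌊4 * X⌋₊
  have hP : (((Icc 1 ⌊4 * X⌋₊).filter fun p : ℕ => p.Prime ∧ X < p ∧ ¬ Fine τ δ c p).card : ℝ) ≤ X ^ (1 - η) := by
    have hsub : ((Icc 1 ⌊4 * X⌋₊).filter fun p : ℕ => p.Prime ∧ X < p ∧ ¬ Fine τ δ c p) ⊆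
        (Icc 1 ⌊4 * X⌋₊).filter fun p : ℕ => p.Prime ∧ X < p ∧
          ∃ n b : ℕ, 1 ≤ n ∧ n ≤ Y ∧ p ∣ n ∧ b ≤ Y ∧ R b ∧ n ≤ b + V ∧ b ≤ n + V := by
      intro p hp
      rw [mem_filter, mem_Icc] at hp ⊢
      obtain ⟨hp14, hpp, hXp, hg⟩ := hp
      have hp4 : (p : ℝ) ≤ 4 * X := (Nat.le_floor_iff (by linarith)).1 hp14.2
      have hpr0 : (0 : ℝ) < p := by linarith
      have hpr1 : (1 : ℝ) ≤ p := by linarith
      refine ⟨hp14, hpp, hXp, ?_⟩
      unfold Fine at hg
      push Not at hg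
      obtain ⟨j, M, k, l, H, hj1, hj2, hM, hk1, hk2, hkl, hH1, hH2, hlt⟩ := hg
      have hpc : (p : ℝ) ^ c ≤ (4 * X) ^ c := Real.rpow_le_rpow hpr0.le hp4 hc0.le
      have hpc1 : (p : ℝ) ^ c ≤ p := by
        calc (p : ℝ) ^ c ≤ (p : ℝ) ^ (1 : ℝ) := Real.rpow_le_rpow_of_exponent_le hpr1 hc1.le
          _ = p := Real.rpow_one _
      have hjp : (j : ℝ) * p ≤ (4 * X) ^ (1 + c) := by
        rw [add_comm, Real.rpow_add (by positivity), Real.rpow_one]
        exact mul_le_mul (hj2.trans hpc) hp4 hpr0.le (by positivity)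
      have h48 : 2 * (4 * X) ^ (1 + c) ≤ (8 * X) ^ (1 + c) := by
        have e : (8 * X) ^ (1 + c) = 2 ^ (1 + c) * (4 * X) ^ (1 + c) := by
          rw [← Real.mul_rpow (by norm_num) (by positivity)]
          congr 1
          ring
        rw [e]
        apply mul_le_mul_of_nonneg_right _ (by positivity)
        calc (2 : ℝ) = 2 ^ (1 : ℝ) := (Real.rpow_one _).symm
          _ ≤ 2 ^ (1 + c) := Real.rpow_le_rpow_of_exponent_le (by norm_num) (by linarith)
      have h44 : 4 * X ≤ (4 * X) ^ (1 + c) := by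
        calc 4 * X = (4 * X) ^ (1 : ℝ) := (Real.rpow_one _).symm
          _ ≤ (4 * X) ^ (1 + c) := Real.rpow_le_rpow_of_exponent_le (by linarith) (by linarith)
      have hnY : j * p ≤ Y := by
        rw [hY]
        refine Nat.le_floor ?_
        push_cast
        have : (0 : ℝ) ≤ (4 * X) ^ (1 + c) := by positivity
        linarith
      have habs := abs_le.1 hM
      have hMY : M ≤ Y := by
        rw [hY]
        refine Nat.le_floor ?_
        linarith
      have hMV : |(M : ℝ) - ((j * p : ℕ) : ℝ)| ≤ V := by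
        have h7 : |(M : ℝ) - ((j * p : ℕ) : ℝ)| ≤ (4 * X) ^ c := by
          push_cast
          exact hM.trans hpc
        have h8 : |(M : ℝ) - ((j * p : ℕ) : ℝ)| = ((|(M : ℤ) - ((j * p : ℕ) : ℤ)|.toNat : ℕ) : ℝ) := by
          have h9 : ((|(M : ℤ) - ((j * p : ℕ) : ℤ)|.toNat : ℕ) : ℤ) = |(M : ℤ) - ((j * p : ℕ) : ℤ)| :=
            Int.toNat_of_nonneg (abs_nonneg _)
          have h10 : (((|(M : ℤ) - ((j * p : ℕ) : ℤ)|.toNat : ℕ) : ℤ) : ℝ) =
              ((|(M : ℤ) - ((j * p : ℕ) : ℤ)| : ℤ) : ℝ) := by rw [h9]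
          rw [Int.cast_natCast] at h10
          rw [h10]
          push_cast
          rfl
        rw [h8] at h7 ⊢
        rw [hV]
        exact_mod_cast Nat.le_floor h7
      have hMV' := abs_le.1 hMV
      have hMV1 : j * p ≤ M + V := by
        have : ((j * p : ℕ) : ℝ) ≤ ((M + V : ℕ) : ℝ) := by push_cast at hMV' ⊢; linarith
        exact_mod_cast this
      have hMV2 : M ≤ j * p + V := by
        have : (M : ℝ) ≤ ((j * p + V : ℕ) : ℝ) := by push_cast at hMV' ⊢; linarith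
        exact_mod_cast this
      have hM1 : 2 ≤ M := by
        have h1 : (1 : ℝ) ≤ j := by exact_mod_cast hj1
        have h3 : (4 * X) ^ c ≤ X / 2 := by
          have h3 : (4 * X) ^ c ≤ (4 * X) ^ (1 / 2 : ℝ) := by
            apply Real.rpow_le_rpow_of_exponent_le (by linarith)
            rw [hc]
            linarith
          rw [← Real.sqrt_eq_rpow] at h3
          refine h3.trans ?_
          rw [Real.sqrt_le_left (by positivity)]
          have h6 : 32 * X ≤ X * X := mul_le_mul_of_nonneg_right hX32 hX0.le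
          have h7 : (X / 2) ^ 2 = X * X / 4 := by ring
          rw [h7]
          linarith
        have h5 : (p : ℝ) ≤ j * p := le_mul_of_one_le_left hpr0.le h1
        have h4 : (2 : ℝ) ≤ M := by linarith
        exact_mod_cast h4
      -- the scale above H
      have hHr0 : (0 : ℝ) < H := lt_of_lt_of_le (by positivity) hH1
      have hH0 : 1 ≤ H := by
        have : 0 < H := by exact_mod_cast hHr0
        omega
      have hXH : X ^ τ ≤ H := (Real.rpow_le_rpow hX0.le hXp.le hτ.le).trans hH1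
      obtain ⟨i, hi1, hi2, hi3⟩ := sca_close hu0 hH0 (hXτ.trans hXH)
      have hH4 : (H : ℝ) ≤ (4 * X) ^ t := by
        refine hH2.trans ?_
        calc (p : ℝ) ^ ((1 + 3 * τ) / 4) ≤ (p : ℝ) ^ t := Real.rpow_le_rpow_of_exponent_le hpr1 ht3
          _ ≤ (4 * X) ^ t := Real.rpow_le_rpow hpr0.le hp4 (by linarith)
      have hsca2 : (sca u i : ℝ) ≤ (Y : ℝ) ^ t := by
        calc (sca u i : ℝ) ≤ (1 + 2 * u) * H := hi2
          _ ≤ 2 * (4 * X) ^ t := by
              apply mul_le_mul (by linarith) hH4 hHr0.le (by norm_num)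
          _ ≤ 4 ^ t * (4 * X) ^ t := by
              apply mul_le_mul_of_nonneg_right _ (by positivity)
              calc (2 : ℝ) = 4 ^ (1 / 2 : ℝ) := by
                    rw [← Real.sqrt_eq_rpow, show (4 : ℝ) = 2 ^ 2 by norm_num, Real.sqrt_sq (by norm_num)]
                _ ≤ 4 ^ t := Real.rpow_le_rpow_of_exponent_le (by norm_num) ht12
          _ = (4 * (4 * X)) ^ t := (Real.mul_rpow (by norm_num) (by positivity)).symm
          _ ≤ (Y : ℝ) ^ t := Real.rpow_le_rpow (by positivity) (by linarith) (by linarith)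
      have hkV : k ≤ V := by
        rw [hV]
        exact Nat.le_floor (hk2.trans hpc)
      have hlk0 : 0 ≤ l % (k : ℤ) := Int.emod_nonneg _ (by exact_mod_cast (by omega : k ≠ 0))
      have hlk : l % (k : ℤ) < k := Int.emod_lt_of_pos _ (by exact_mod_cast (by omega : 0 < k))
      have hiV : i ≤ V := by
        rw [hV]
        apply Nat.le_floor
        have h5 : Real.log H ≤ Real.log (4 * X) := by
          apply Real.log_le_log hHr0
          calc (H : ℝ) ≤ (4 * X) ^ t := hH4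
            _ ≤ (4 * X) ^ (1 : ℝ) := Real.rpow_le_rpow_of_exponent_le (by linarith) ht1.le
            _ = 4 * X := Real.rpow_one _
        have h8 : (i : ℝ) ≤ (Real.log (4 * X) + Real.log (1 + u)) / Real.log (1 + u) := by
          rw [le_div_iff₀ hl0]
          linarith
        have h9 : (Real.log (4 * X) + Real.log (1 + u)) / Real.log (1 + u) = Real.log (4 * X) / Real.log (1 + u) + 1 := by
          field_simp
        linarith
      refine ⟨j * p, M, Nat.mul_pos (by omega) hpp.pos, hnY, dvd_mul_left _ _, hMY, ?_, hMV1, hMV2⟩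
      rw [hR]
      refine ⟨(k, (l % (k : ℤ)).toNat, i), ?_, by omega, ?_⟩
      · rw [hI, mem_filter, mem_product, mem_product, mem_range, mem_range, mem_range]
        refine ⟨⟨by omega, by
          show (l % (k : ℤ)).toNat < V + 1
          omega, by
          show i < V + 1
          omega⟩, hk1, ?_, hXH.trans (by exact_mod_cast hi1), hsca2⟩
        show Int.gcd (((l % (k : ℤ)).toNat : ℕ) : ℤ) k = 1
        rw [Int.toNat_of_nonneg hlk0, Int.gcd_emod]
        exact hkl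
      · show Bad A' k (((l % (k : ℤ)).toNat : ℕ) : ℤ) (sca u i) M
        rw [Int.toNat_of_nonneg hlk0]
        unfold Bad
        rw [← pc_mod]
        have hlM : 0 < Real.log M := Real.log_pos (by exact_mod_cast hM1)
        have hφ : (0 : ℝ) < Nat.totient k := by exact_mod_cast Nat.totient_pos.2 (by omega)
        have hkr : (0 : ℝ) < k := by exact_mod_cast hk1
        have h5 : A' * ((k : ℝ) * (sca u i)) ≤ A * (k * H) := by
          calc A' * ((k : ℝ) * (sca u i)) ≤ A' * ((k : ℝ) * ((1 + 2 * u) * H)) := by gcongr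
            _ = A' * (1 + 2 * u) * (k * H) := by ring
            _ ≤ A * (k * H) := by gcongr
        have h6 : A * (k * H) < Nat.totient k * Real.log M * primeCount (k * (M + H)) (k * H) k l := by
          rw [← hA] at hlt
          have h7 : A * ((k : ℝ) * H / (Nat.totient k * Real.log M)) = A * (k * H) / (Nat.totient k * Real.log M) := by
            ring
          rw [h7, div_lt_iff₀ (by positivity)] at hlt
          linarith
        refine h5.trans_lt (h6.trans_le ?_)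
        have h7 : (primeCount (k * (M + H)) (k * H) k l : ℝ) ≤ primeCount (k * (M + sca u i)) (k * sca u i) k l := by
          exact_mod_cast pc_mono hi1
        gcongr
    have h1 : (((Icc 1 ⌊4 * X⌋₊).filter fun p : ℕ => p.Prime ∧ X < p ∧ ¬ Fine τ δ c p).card : ℝ) ≤
        (((range (Y + 1)).filter R).card : ℝ) * (2 * V + 1) := by
      have h2 := (card_le_card hsub).trans hcore
      have h3 : (((Icc 1 ⌊4 * X⌋₊).filter fun p : ℕ => p.Prime ∧ X < p ∧ ¬ Fine τ δ c p).card : ℝ) ≤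
        (((0 + 1) * (((range (Y + 1)).filter R).card * (2 * V + 1)) : ℕ) : ℝ) := by exact_mod_cast h2
      refine h3.trans (le_of_eq ?_)
      push_cast
      ring
    refine h1.trans ?_
    have h2 : (2 * (V : ℝ) + 1) ≤ 3 * (4 * X) ^ c := by linarith
    have h3 : (Y : ℝ) ^ (2 * t + ε) ≤ (8 * X) ^ ((1 + c) * (2 * t + ε)) := by
      rw [Real.rpow_mul (by positivity)]
      exact Real.rpow_le_rpow hY0.le hYle (by linarith)
    have h4 : (4 * X) ^ c ≤ (8 * X) ^ c := Real.rpow_le_rpow (by positivity) (by linarith) hc0.le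
    obtain ⟨e, he⟩ : ∃ e, e = 4 * c + (1 + c) * (2 * t + ε) := ⟨_, rfl⟩
    have ha2 : 2 * t + ε ≤ 2 := by rw [h2t, hε]; linarith
    have hca : c * (2 * t + ε) ≤ c * 2 := mul_le_mul_of_nonneg_left ha2 hc0.le
    have he' : e = 4 * c + (2 * t + ε) + c * (2 * t + ε) := by rw [he]; ring
    have he3 : e ≤ 3 := by
      rw [he']
      have : 6 * c ≤ 1 := by rw [hc]; linarith
      linarith
    have heτ : e - τ ≤ 1 - s := by
      rw [he']
      have : 2 * t + ε - τ = 1 - 2 * s + s / 4 := by rw [h2t, hε]; ring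
      have : 6 * c = 3 / 4 * s := by rw [hc]; ring
      linarith
    calc (((range (Y + 1)).filter R).card : ℝ) * (2 * V + 1)
        ≤ ((2 * (4 * X) ^ c) ^ 3 * ((Y : ℝ) ^ (2 * t + ε) / X ^ τ)) * (3 * (4 * X) ^ c) := by
          apply mul_le_mul hRc h2 (by positivity) (by positivity)
      _ ≤ ((2 * (8 * X) ^ c) ^ 3 * ((8 * X) ^ ((1 + c) * (2 * t + ε)) / X ^ τ)) * (3 * (8 * X) ^ c) := by
          gcongr
      _ = 24 * (((8 * X) ^ c) ^ 4 * (8 * X) ^ ((1 + c) * (2 * t + ε))) / X ^ τ := by ring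
      _ = 24 * (8 * X) ^ e / X ^ τ := by
          rw [← Real.rpow_natCast ((8 * X) ^ c) 4, ← Real.rpow_mul (by positivity), ← Real.rpow_add (by positivity), he]
          congr 3
          push_cast
          ring
      _ = 24 * 8 ^ e * X ^ (e - τ) := by
          rw [Real.mul_rpow (by norm_num) hX0.le, Real.rpow_sub hX0]
          ring
      _ ≤ 24 * 512 * X ^ (1 - s) := by
          apply mul_le_mul _ (Real.rpow_le_rpow_of_exponent_le hX1 heτ) (by positivity) (by norm_num)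
          apply mul_le_mul_of_nonneg_left _ (by norm_num)
          calc (8 : ℝ) ^ e ≤ 8 ^ (3 : ℝ) := Real.rpow_le_rpow_of_exponent_le (by norm_num) he3
            _ = 512 := by norm_num
      _ ≤ X ^ (s / 2) * X ^ (1 - s) := by
          apply mul_le_mul_of_nonneg_right _ (by positivity)
          linarith
      _ = X ^ (1 - s / 2) := by
          rw [← Real.rpow_add hX0]
          congr 1
          ring
      _ ≤ X ^ (1 - η) := Real.rpow_le_rpow_of_exponent_le hX1 (by linarith)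
  have h1 := hS3 f hf (Fine τ δ c) hP
  have h2 : X ^ (1 - κ) ≤ X ^ (1 - η) := Real.rpow_le_rpow_of_exponent_le hX1 (by linarith)
  refine h2.trans (h1.trans ?_)
  rw [Nat.cast_le]
  apply card_le_card
  intro n hn
  rw [mem_filter] at hn ⊢
  obtain ⟨h3, h4, h5⟩ := hn
  exact ⟨h3, h4, h5.1, h5.2⟩

end Pool.Agent.Results.MP_26a8c3_nt.StringsNearMultiples
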